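import Pool.Agent.helper17.RX.Spec

set_option autoImplicit false

namespace TP.TW

open DP MeasureTheory Finset

theorem DRX_prob : IsProbabilityMeasure P1 := by
  unfold P1
  infer_instance

theorem DRX_nonneg (F : Set (V → Bool)) : 0 ≤ Pr F := measureReal_nonneg

theorem DRX_mono {F G : Set (V → Bool)} (h : F ⊆ G) : Pr F ≤ Pr G := by
  have := DRX_prob
  exact measureReal_mono h

theorem DRX_le_one (F : Set (V → Bool)) : Pr F ≤ 1 := by
  have := DRX_prob
  exact measureReal_le_one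

/-- the shifted coins -/
def DRX_sh (τ : V) (β : V → Bool) : V → Bool := fun v => β (v.1 + τ.1, v.2 + τ.2)

theorem DRX_shf (τ : V) (A : Finset V) (v : V) : v ∈ shf τ A ↔ (v.1 - τ.1, v.2 - τ.2) ∈ A := by
  unfold shf
  rw [mem_image]
  constructor
  · rintro ⟨w, hw, rfl⟩
    have : ((w.1 + τ.1 - τ.1, w.2 + τ.2 - τ.2) : V) = w := by
      ext
      · dsimp only; omega
      · dsimp only; omega
    rw [this]
    exact hw
  · intro h
    refine ⟨_, h, ?_⟩
    ext
    · dsimp only; omega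
    · dsimp only; omega

theorem DRX_dep (Ω : Finset V) (S : ℕ → (V → Bool) → Finset V) (hS : Rnd Ω S) (i : ℕ) (β β' : V → Bool)
    (h : ∀ v ∈ Ω, β v = β' v) : S i β = S i β' := by
  cases i with
  | zero => rw [hS.1, hS.1]
  | succ i => exact hS.2.2 i β β' fun v hv => h v ((hS.2.1 i β).2 hv)

theorem DRX_inc (Ω : Finset V) (S : ℕ → (V → Bool) → Finset V) (hS : Rnd Ω S) (β : V → Bool) (i j : ℕ) (h : i ≤ j) :
    S i β ⊆ S j β := by
  induction j with
  | zero => have : i = 0 := by omega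
            subst this; exact Subset.refl _
  | succ j ih =>
    rcases Nat.lt_or_ge i (j + 1) with h1 | h1
    · exact (ih (by omega)).trans (hS.2.1 j β).1
    · have : i = j + 1 := by omega
      subst this; exact Subset.refl _

theorem DRX_rnd (Ω Ω' : Finset V) (S : ℕ → (V → Bool) → Finset V) (hS : Rnd Ω S) (R : ℕ) (τ : V)
    (hΩ : shf τ Ω ⊆ Ω') : Rnd Ω' (fun i β => shf τ (S (min i (R + 1)) (DRX_sh τ β))) := by
  refine ⟨?_, ?_, ?_⟩
  · intro β
    show shf τ (S (min 0 (R + 1)) (DRX_sh τ β)) = ∅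
    rw [Nat.zero_min, hS.1]
    rfl
  · intro i β
    constructor
    · show shf τ (S (min i (R + 1)) (DRX_sh τ β)) ⊆ shf τ (S (min (i + 1) (R + 1)) (DRX_sh τ β))
      unfold shf
      exact image_subset_image (DRX_inc Ω S hS _ _ _ (by omega))
    · refine Subset.trans ?_ hΩ
      show shf τ (S (min i (R + 1)) (DRX_sh τ β)) ⊆ shf τ Ω
      unfold shf
      exact image_subset_image (hS.2.1 _ _).2
  · intro i β β' h
    show shf τ (S (min (i + 1) (R + 1)) (DRX_sh τ β)) = shf τ (S (min (i + 1) (R + 1)) (DRX_sh τ β'))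
    have e : min (i + 1) (R + 1) = min i R + 1 := by omega
    rw [e]
    have h2 : S (min i R + 1) (DRX_sh τ β) = S (min i R + 1) (DRX_sh τ β') := by
      refine hS.2.2 (min i R) _ _ ?_
      intro v hv
      have hv2 : v ∈ S (min i (R + 1)) (DRX_sh τ β) := DRX_inc Ω S hS _ _ _ (by omega) hv
      refine h (v.1 + τ.1, v.2 + τ.2) ?_
      show (v.1 + τ.1, v.2 + τ.2) ∈ shf τ (S (min i (R + 1)) (DRX_sh τ β))
      unfold shf
      exact mem_image_of_mem (fun v : V => (v.1 + τ.1, v.2 + τ.2)) hv2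
    rw [h2]

theorem DRX (env : ENV_stmt) (shp : SHP_stmt) : DRX_stmt := by
  intro Ω S R hS hbr
  refine ⟨hbr, fun β => (hS.2.1 _ β).2, ⟨Ω, fun β β' h => DRX_dep Ω S hS _ β β' h⟩, fun v => DRX_nonneg _, ?_,
    by positivity, ?_⟩
  · intro v hv
    have : {β : V → Bool | v ∈ S (R + 1) β} = ∅ := by
      ext β
      simp only [Set.mem_empty_iff_false, iff_false]
      intro h
      exact hv ((hS.2.1 _ β).2 h)
    show Pr {β : V → Bool | v ∈ S (R + 1) β} = 0
    rw [this]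
    simp [Pr]
  · intro T U Λ z E hE hU
    obtain ⟨N, hN⟩ : ∃ N : ℝ, N = ∑ v ∈ U, Pr {β | v ∈ S (R + 1) β} := ⟨_, rfl⟩
    have hN0 : 0 ≤ N := by rw [hN]; exact sum_nonneg fun v _ => DRX_nonneg _
    have hCD : ∀ (i : ℕ) (v : V), CD {β | v ∈ S i β} Ω := by
      intro i v β β' h
      show v ∈ S i β ↔ v ∈ S i β'
      rw [DRX_dep Ω S hS i β β' h]
    have hb : ∀ i : ℕ, ∀ v ∈ insert z Λ, ∑ τ ∈ T, Pr {β | v ∈ shf τ (S (min i (R + 1)) (DRX_sh τ β))} ≤ N := by
      intro i v hv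
      have h1 : ∀ τ ∈ T, Pr {β | v ∈ shf τ (S (min i (R + 1)) (DRX_sh τ β))} ≤
          Pr {β | (v.1 - τ.1, v.2 - τ.2) ∈ S (R + 1) β} := by
        intro τ _
        have h2 : {β | v ∈ shf τ (S (min i (R + 1)) (DRX_sh τ β))} =
            {β : V → Bool | (fun v => β (v.1 + τ.1, v.2 + τ.2)) ∈
              {β : V → Bool | ((v.1 - τ.1, v.2 - τ.2) : V) ∈ S (min i (R + 1)) β}} := by
          ext β
          exact DRX_shf τ _ v
        rw [h2, shp _ _ (hCD (min i (R + 1)) (v.1 - τ.1, v.2 - τ.2)) τ.1 τ.2]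
        refine DRX_mono fun β hβ => ?_
        exact DRX_inc Ω S hS β _ _ (by omega) hβ
      refine (sum_le_sum h1).trans ?_
      have hinj : Function.Injective (fun τ : V => ((v.1 - τ.1, v.2 - τ.2) : V)) := by
        rintro ⟨x, y⟩ ⟨u, w⟩ h
        simp only [Prod.mk.injEq] at h ⊢
        omega
      have h3 : ∑ τ ∈ T, Pr {β | ((v.1 - τ.1, v.2 - τ.2) : V) ∈ S (R + 1) β} =
          ∑ u ∈ T.image (fun τ : V => ((v.1 - τ.1, v.2 - τ.2) : V)), Pr {β | u ∈ S (R + 1) β} :=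
        (Finset.sum_image (f := fun u => Pr {β | u ∈ S (R + 1) β}) (fun x _ y _ h => hinj h)).symm
      rw [h3, hN]
      refine sum_le_sum_of_subset_of_nonneg ?_ fun v _ _ => DRX_nonneg _
      intro u hu
      rw [mem_image] at hu
      obtain ⟨τ, hτ, rfl⟩ := hu
      exact hU v hv τ hτ
    have key := env V T (fun τ i β => shf τ (S (min i (R + 1)) (DRX_sh τ β)))
      (T.biUnion fun τ => shf τ Ω) Λ z N E R hE (fun τ hτ => DRX_rnd Ω _ S hS R τ
        (subset_biUnion_of_mem (fun τ => shf τ Ω) hτ)) hb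
    have h5 : ∀ τ ∈ T, Pr (E ∩ {β | (z.1 - τ.1, z.2 - τ.2) ∈ S (R + 1) (fun v => β (v.1 + τ.1, v.2 + τ.2))}) =
        Pr (E ∩ {β | z ∈ shf τ (S (min (R + 1) (R + 1)) (DRX_sh τ β))}) := by
      intro τ _
      have : {β : V → Bool | (z.1 - τ.1, z.2 - τ.2) ∈ S (R + 1) (fun v => β (v.1 + τ.1, v.2 + τ.2))} =
          {β | z ∈ shf τ (S (min (R + 1) (R + 1)) (DRX_sh τ β))} := by
        ext β
        rw [Nat.min_self]
        exact (DRX_shf τ _ z).symm
      rw [this]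
    rw [sum_congr rfl h5, ← hN]
    refine key.trans ?_
    have hP0 := DRX_nonneg E
    have hP1 := DRX_le_one E
    have hL : 0 ≤ Real.log (1 / Pr E) := by
      rcases hP0.eq_or_lt with h | h
      · rw [← h]; simp
      · exact Real.log_nonneg (by rw [le_div_iff₀ h]; linarith)
    have hR0 : (0 : ℝ) ≤ R := Nat.cast_nonneg _
    have hc1 : (0 : ℝ) ≤ (#Λ : ℝ) := Nat.cast_nonneg _
    have hc2 : (0 : ℝ) ≤ (#T : ℝ) := Nat.cast_nonneg _
    have hl : Real.log (#Λ + 3) ≤ Real.log (#T + #Λ + 3) := Real.log_le_log (by linarith) (by linarith)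
    have hl0 : 0 ≤ Real.log (#Λ + 3) := Real.log_nonneg (by linarith)
    have h6 : 68 * (Real.log (1 / Pr E) + 3 * ((R : ℝ) + 1) * Real.log (#Λ + 3)) ≤
        204 * ((R : ℝ) + 1) * (Real.log (1 / Pr E) + Real.log (#T + #Λ + 3)) := by
      have e1 : ((R : ℝ) + 1) * Real.log (#Λ + 3) ≤ ((R : ℝ) + 1) * Real.log (#T + #Λ + 3) :=
        mul_le_mul_of_nonneg_left hl (by linarith)
      have e2 : 0 ≤ (R : ℝ) * Real.log (1 / Pr E) := mul_nonneg hR0 hL
      nlinarith
    have h7 : 0 ≤ 68 * (Real.log (1 / Pr E) + 3 * ((R : ℝ) + 1) * Real.log (#Λ + 3)) := by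
      have : 0 ≤ 3 * ((R : ℝ) + 1) * Real.log (#Λ + 3) := mul_nonneg (by linarith) hl0
      linarith
    have h8 := pow_le_pow_left₀ h7 h6 R
    calc Pr E * (N * (68 * (Real.log (1 / Pr E) + 3 * ((R : ℝ) + 1) * Real.log (#Λ + 3))) ^ R)
        ≤ Pr E * (N * (204 * ((R : ℝ) + 1) * (Real.log (1 / Pr E) + Real.log (#T + #Λ + 3))) ^ R) :=
          mul_le_mul_of_nonneg_left (mul_le_mul_of_nonneg_left h8 hN0) hP0
      _ = _ := by rw [mul_pow (204 * ((R : ℝ) + 1))]; ring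

end TP.TW
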